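import Mathlib
import Pool.Agent.H.MP_8f9e48_lc.Gen
namespace Pool.Agent.H.MP_773080_lc
open Pool.Agent.H.MP_8f9e48_lc List

variable {X Y N σ Q : Type}

lemma gen_append {R : Set (ContextFreeRule X N)} {s1 s2 w1 w2} (h1 : Gen R s1 w1)
    (h2 : Gen R s2 w2) : Gen R (s1 ++ s2) (w1 ++ w2) := by
  induction h1 with
  | nil => exact h2
  | term x _ ih => exact .term x ih
  | nt r hr h0 _ _ ih => rw [List.append_assoc]; exact .nt r hr h0 ih

def isNT : Symbol X N → Bool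
  | .terminal _ => false
  | .nonterminal _ => true

def Step (S : Set σ) (Acc : σ → List Y → Prop) (p : σ) (w : List Y) : Prop :=
  ∃ p' ∈ S, ∃ a w', Acc p' w' ∧ ((w = a :: w' ∧ ∀ z, Acc p' z → Acc p (a :: z)) ∨
    (w = w' ++ [a] ∧ ∀ z, Acc p' z → Acc p (z ++ [a])))

lemma dec {R : Set (ContextFreeRule X N)} (S : Set (List (Symbol X N)))
    (h1 : ∀ s ∈ S, ∀ s', s' <:+: s → s' ∈ S) (h2 : ∀ s ∈ S, s.countP isNT ≤ 1)
    (h3 : ∀ r ∈ R, r.output ∈ S) {s w} (h : Gen R s w) (hs : s ∈ S) (hw : w ≠ []) :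
    Step S (Gen R) s w := by
  induction h with
  | nil => exact absurd rfl hw
  | @term x s w h _ =>
    exact ⟨s, h1 _ hs _ (suffix_cons _ _).isInfix, x, w, h, Or.inl ⟨rfl, fun z hz => .term x hz⟩⟩
  | @nt r u s w hr h0 h4 ih _ =>
    rcases eq_nil_or_concat s with rfl | ⟨s', b, rfl⟩
    · cases h4
      rw [append_nil] at hw ⊢
      obtain ⟨p', hp', a, w', h5, h6⟩ := ih (h3 r hr) hw
      refine ⟨p', hp', a, w', h5, h6.imp (fun h => ⟨h.1, fun z hz => ?_⟩)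
        (fun h => ⟨h.1, fun z hz => ?_⟩)⟩
      · simpa using Gen.nt r hr (h.2 z hz) .nil
      · simpa using Gen.nt r hr (h.2 z hz) .nil
    · rw [concat_eq_append] at *
      have h5 := h2 _ hs
      cases b with
      | nonterminal B => simp [isNT, countP_cons] at h5
      | terminal a =>
        obtain ⟨w1, w2, rfl, h6, h7⟩ := h4.split
        cases h7 with
        | term _ h8 =>
          cases h8
          refine ⟨.nonterminal r.input :: s', h1 _ hs _ (prefix_append _ [_]).isInfix, a, u ++ w1,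
            .nt r hr h0 h6, Or.inr ⟨by simp, fun z hz => ?_⟩⟩
          exact gen_append hz (.term a .nil)

def Ctx (Acc : σ → List Y → Prop) (p : σ) (a b : List Y) (p' : σ) : Prop :=
  ∀ z, Acc p' z → Acc p (a ++ z ++ b)

lemma path {S : Set σ} {Acc : σ → List Y → Prop}
    (hS : ∀ p ∈ S, ∀ w, Acc p w → w ≠ [] → Step S Acc p w) {p0 W} (h0 : p0 ∈ S) (hW : Acc p0 W) :
    ∃ (p : ℕ → σ) (α m β : ℕ → List Y), p 0 = p0 ∧ α 0 = [] ∧ β 0 = [] ∧
      (∀ t, p t ∈ S ∧ Acc (p t) (m t) ∧ W = α t ++ m t ++ β t) ∧ m W.length = [] ∧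
      (∀ t, (α (t + 1)).length ≤ (α t).length + 1 ∧ (β (t + 1)).length ≤ (β t).length + 1) ∧
      ∀ t t', t ≤ t' → ∃ a b, α t' = α t ++ a ∧ β t' = b ++ β t ∧ Ctx Acc (p t) a b (p t') := by
  have ex : ∀ c : σ × List Y, ∃ (c' : σ × List Y) (a b : List Y), c.1 ∈ S → Acc c.1 c.2 →
      c'.1 ∈ S ∧ Acc c'.1 c'.2 ∧ c.2 = a ++ c'.2 ++ b ∧ a.length ≤ 1 ∧ b.length ≤ 1 ∧
        c'.2.length = c.2.length - 1 ∧ Ctx Acc c.1 a b c'.1 := by
    rintro ⟨p, w⟩
    by_cases hw : w = []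
    · exact ⟨(p, w), [], [], fun h1 h2 => ⟨h1, h2, by simp, by simp, by simp, by simp [hw],
        fun z hz => by simpa using hz⟩⟩
    by_cases hp : p ∈ S ∧ Acc p w
    · obtain ⟨p', h1, a, w', h2, ⟨rfl, h3⟩ | ⟨rfl, h3⟩⟩ := hS p hp.1 w hp.2 hw
      · exact ⟨(p', w'), [a], [], fun _ _ => ⟨h1, h2, by simp, by simp, by simp, by simp,
          fun z hz => by simpa using h3 z hz⟩⟩
      · exact ⟨(p', w'), [], [a], fun _ _ => ⟨h1, h2, by simp, by simp, by simp, by simp,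
          fun z hz => by simpa using h3 z hz⟩⟩
    · exact ⟨(p, w), [], [], fun h1 h2 => absurd ⟨h1, h2⟩ hp⟩
  choose nx la lb hnx using ex
  let c : ℕ → σ × List Y := fun t => nx^[t] (p0, W)
  have hc : ∀ t, c (t + 1) = nx (c t) := fun t => Function.iterate_succ_apply' _ _ _
  let α : ℕ → List Y := fun t => Nat.rec [] (fun t a => a ++ la (c t)) t
  let β : ℕ → List Y := fun t => Nat.rec [] (fun t b => lb (c t) ++ b) t
  have hα : ∀ t, α (t + 1) = α t ++ la (c t) := fun _ => rfl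
  have hβ : ∀ t, β (t + 1) = lb (c t) ++ β t := fun _ => rfl
  have inv : ∀ t, (c t).1 ∈ S ∧ Acc (c t).1 (c t).2 ∧ W = α t ++ (c t).2 ++ β t ∧
      (c t).2.length = W.length - t := by
    intro t
    induction t with
    | zero => exact ⟨h0, hW, by simp [α, β, c], rfl⟩
    | succ t ih =>
      obtain ⟨h1, h2, h3, -, -, h4, -⟩ := hnx _ ih.1 ih.2.1
      rw [hc]
      refine ⟨h1, h2, ?_, by rw [h4, ih.2.2.2]; omega⟩
      rw [hα, hβ, ih.2.2.1]
      conv_lhs => rw [h3]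
      simp only [append_assoc]
  refine ⟨fun t => (c t).1, α, fun t => (c t).2, β, rfl, rfl, rfl,
    fun t => ⟨(inv t).1, (inv t).2.1, (inv t).2.2.1⟩, ?_, fun t => ?_, fun t t' h => ?_⟩
  · exact length_eq_zero_iff.mp (by rw [(inv _).2.2.2]; omega)
  · obtain ⟨-, -, -, h1, h2, -⟩ := hnx _ (inv t).1 (inv t).2.1
    simp only [hα, hβ, length_append]
    omega
  · induction t', h using Nat.le_induction with
    | base => exact ⟨[], [], by simp, by simp, fun z hz => by simpa using hz⟩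
    | succ t' _ ih =>
      obtain ⟨a, b, h1, h2, h3⟩ := ih
      obtain ⟨-, -, -, -, -, -, h4⟩ := hnx _ (inv t').1 (inv t').2.1
      refine ⟨a ++ la (c t'), lb (c t') ++ b, by rw [hα, h1, append_assoc],
        by rw [hβ, h2, append_assoc], fun z hz => ?_⟩
      simp only [hc] at hz
      simpa only [append_assoc] using h3 _ (h4 z hz)

lemma ivt {f : ℕ → ℕ} (h0 : f 0 = 0) (h : ∀ t, f (t + 1) ≤ f t + 1) {T v : ℕ} (hv : v ≤ f T) :
    ∃ t ≤ T, f t = v := by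
  induction T with
  | zero => exact ⟨0, le_rfl, by omega⟩
  | succ T ih =>
    by_cases h1 : v ≤ f T
    · obtain ⟨t, h2, h3⟩ := ih h1
      exact ⟨t, by omega, h3⟩
    · exact ⟨T + 1, le_rfl, by have := h T; omega⟩

lemma pigeon {B : Set σ} (hB : B.Finite) :
    ∃ p, ∀ f : ℕ → σ, (∀ i ≤ p, f i ∈ B) → ∃ i j, i < j ∧ j ≤ p ∧ f i = f j := by
  classical
  refine ⟨hB.toFinset.card, fun f hf => ?_⟩
  obtain ⟨i, hi, j, hj, h1, h2⟩ := Finset.exists_ne_map_eq_of_card_lt_of_maps_to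
    (s := Finset.range (hB.toFinset.card + 1)) (t := hB.toFinset) (by simp) (f := f)
    (fun i hi => by simpa using hf i (by simpa [Nat.lt_succ_iff] using hi))
  simp only [Finset.mem_range] at hi hj
  rcases lt_or_gt_of_ne h1 with h | h
  · exact ⟨i, j, h, by omega, h2⟩
  · exact ⟨j, i, h, by omega, h2.symm⟩

def pw (U : List Y) : ℕ → List Y
  | 0 => []
  | n + 1 => pw U n ++ U

lemma pw_add (U : List Y) (m n : ℕ) : pw U (m + n) = pw U m ++ pw U n := by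
  induction n with
  | zero => simp [pw]
  | succ n ih => rw [← Nat.add_assoc, pw, ih, pw, append_assoc]

lemma pw_len (U : List Y) (n : ℕ) : (pw U n).length = n * U.length := by
  induction n with
  | zero => simp [pw]
  | succ n ih => simp [pw, ih, Nat.succ_mul]

lemma mem_pw {U : List Y} {n x} (h : x ∈ pw U n) : x ∈ U := by
  induction n with
  | zero => simp [pw] at h
  | succ n ih => exact (mem_append.mp h).elim ih id

lemma pre_pw {A U α : List Y} {n : ℕ} (h : α <+: A ++ pw U n) :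
    ∃ k ≤ n, ∃ s, (s <:+ A ∨ s <:+ U) ∧ α ++ s = A ++ pw U k := by
  induction n with
  | zero =>
    obtain ⟨s, hs⟩ := h
    simp only [pw, append_nil] at hs
    exact ⟨0, le_rfl, s, Or.inl ⟨α, hs⟩, by simp [pw, hs]⟩
  | succ n ih =>
    rw [pw, ← append_assoc] at h
    rcases prefix_or_prefix_of_prefix h (prefix_append _ U) with h' | ⟨ρ, rfl⟩
    · obtain ⟨k, h1, h2⟩ := ih h'
      exact ⟨k, by omega, h2⟩
    · obtain ⟨s, hs⟩ := (prefix_append_right_inj _).mp h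
      exact ⟨n + 1, le_rfl, s, Or.inr ⟨ρ, hs⟩, by rw [pw, ← hs]; simp⟩

def Rec (δ : Q → X → Q) (A : Set X) (q : Q) : Prop :=
  ∀ w : List X, (∀ x ∈ w, x ∈ A) → ∃ u : List X, (∀ x ∈ u, x ∈ A) ∧ (w ++ u).foldl δ q = q

lemma rec1 [Finite Q] (δ : Q → X → Q) (A : Set X) (p : Q) :
    ∃ y : List X, (∀ x ∈ y, x ∈ A) ∧ Rec δ A (y.foldl δ p) := by
  let Re : Q → Set Q := fun r => {r' | ∃ y : List X, (∀ x ∈ y, x ∈ A) ∧ y.foldl δ r = r'}
  have tr : ∀ r, ∀ r' ∈ Re r, Re r' ⊆ Re r := by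
    rintro r _ ⟨y, hy, rfl⟩ _ ⟨z, hz, rfl⟩
    exact ⟨y ++ z, fun x hx => (mem_append.mp hx).elim (hy x) (hz x), foldl_append⟩
  have rf : ∀ r, r ∈ Re r := fun r => ⟨[], by simp, rfl⟩
  obtain ⟨r, hr, hmin⟩ := Set.exists_min_image (Re p) (fun r => (Re r).ncard) (Set.toFinite _)
    ⟨p, rf p⟩
  obtain ⟨y, hy, rfl⟩ := hr
  refine ⟨y, hy, fun w hw => ?_⟩
  have h1 : w.foldl δ (y.foldl δ p) ∈ Re (y.foldl δ p) := ⟨w, hw, rfl⟩
  have h2 := Set.eq_of_subset_of_ncard_le (tr _ _ h1) (hmin _ (tr _ _ ⟨y, hy, rfl⟩ h1))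
  obtain ⟨u, hu, h3⟩ : y.foldl δ p ∈ Re (w.foldl δ (y.foldl δ p)) := h2 ▸ rf _
  exact ⟨u, hu, by rw [foldl_append, h3]⟩

lemma recN [Finite Q] (δ : Q → X → Q) (A : ℕ → Set X) (hA : Monotone A) (n : ℕ) (p : Q) :
    ∃ y : List X, (∀ x ∈ y, x ∈ A n) ∧ ∀ j ≤ n, Rec δ (A j) (y.foldl δ p) := by
  induction n generalizing p with
  | zero =>
    obtain ⟨y, h1, h2⟩ := rec1 δ (A 0) p
    exact ⟨y, h1, fun j hj => by rwa [Nat.le_zero.mp hj]⟩
  | succ n ih =>
    obtain ⟨y, h1, h2⟩ := rec1 δ (A (n + 1)) p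
    obtain ⟨z, h3, h4⟩ := ih (y.foldl δ p)
    have h5 : ∀ x ∈ z, x ∈ A (n + 1) := fun x hx => hA (Nat.le_succ n) (h3 x hx)
    refine ⟨y ++ z, fun x hx => (mem_append.mp hx).elim (h1 x) (h5 x), fun j hj => ?_⟩
    rw [foldl_append]
    rcases hj.lt_or_eq with hj | rfl
    · exact h4 j (by omega)
    · intro w hw
      obtain ⟨u, hu, h6⟩ := h2 (z ++ w) fun x hx => (mem_append.mp hx).elim (h5 x) (hw x)
      refine ⟨u ++ z, fun x hx => (mem_append.mp hx).elim (hu x) (h5 x), ?_⟩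
      simp only [foldl_append] at h6 ⊢
      rw [h6]

end Pool.Agent.H.MP_773080_lc
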