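import Pool.Agent.H.MP_773080_lc.Core
namespace Pool.Agent.H.MP_773080_lc
open Pool.Agent.H.MP_8f9e48_lc List

variable {X Y N σ Q : Type}

lemma main [Finite Q] {S : Set σ} (hfin : S.Finite) {Acc : σ → List Y → Prop}
    (hS : ∀ p ∈ S, ∀ w, Acc p w → w ≠ [] → Step S Acc p w) {p0 : σ} (h0 : p0 ∈ S)
    (δ : Q → X → Q) (O : Q → List X → List Y) (F : Set Q) (q0 : Q) (hnil : ∀ q, O q [] = [])
    (hO : ∀ q u v, O q (u ++ v) = O q u ++ O (u.foldl δ q) v)
    (Mem : List X → Prop) (hMem : ∀ x, Mem x ↔ x.foldl δ q0 ∈ F ∧ Acc p0 (O q0 x))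
    (a d : X) (y V E : List X) (q : Q) (hy : y.foldl δ q0 = q) (hV : V.foldl δ q = q)
    (hin : ∀ n p, Mem (y ++ pw V n ++ (replicate p a ++ replicate p d ++ E)))
    (hcnt : ∀ n p p', Mem (y ++ pw V n ++ (replicate p a ++ replicate p' d ++ E)) → p = p') :
    ∃ C ∈ S, (∃ r ≥ 1, Ctx Acc C (O q (pw V r)) [] C) ∧ ∀ V' : List X, V'.foldl δ q = q →
      Ctx Acc C (O q V') [] C →
      ∃ i k p, Mem (y ++ (pw V i ++ V' ++ pw V k) ++ (replicate p a ++ replicate p d ++ E)) := by
  classical
  set A0 := O q0 y with hA0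
  set U := O q V with hU
  have f1 : ∀ n, (pw V n).foldl δ q = q := by
    intro n
    induction n with
    | zero => rfl
    | succ n ih => rw [pw, foldl_append, ih, hV]
  have f2 : ∀ n, O q (pw V n) = pw U n := by
    intro n
    induction n with
    | zero => exact hnil q
    | succ n ih => rw [pw, hO, ih, f1, pw]
  have f3 : ∀ n z, O q0 (y ++ pw V n ++ z) = A0 ++ pw U n ++ O q z := by
    intro n z
    rw [hO, hO, foldl_append, hy, f1, f2]
  have f4 : ∀ n z, (y ++ pw V n ++ z).foldl δ q0 = z.foldl δ q := by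
    intro n z
    rw [foldl_append, foldl_append, hy, f1]
  have hcl : {s | s <:+ A0 ∨ s <:+ U}.Finite := by
    refine (A0.tails ++ U.tails).finite_toSet.subset fun s hs => ?_
    simpa using hs
  obtain ⟨p, hp⟩ := pigeon (hfin.prod ((Set.toFinite (Set.univ : Set Q)).prod hcl))
  let g : ℕ → Q := fun i => (replicate p a ++ replicate i d).foldl δ q
  let Dp : ℕ → List Y := fun i => O q (replicate p a ++ replicate i d)
  let Yi : ℕ → List Y := fun i => O (g i) (replicate (p - i) d ++ E)
  have f5 : ∀ i ≤ p, O q (replicate p a ++ replicate p d ++ E) = Dp i ++ Yi i := by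
    intro i hi
    simp only [Dp, Yi, g]
    rw [← hO]
    congr 1
    rw [append_assoc, append_assoc, ← append_assoc (replicate i d), ← replicate_add]
    congr 3
    omega
  have f6 : ∀ i ≤ p, (Yi i).length ≤ (Yi 0).length := by
    intro i hi
    have h1 := congrArg length ((f5 i hi).symm.trans (f5 0 (Nat.zero_le _)))
    simp only [Dp, hO, length_append, replicate_zero, hnil, length_nil] at h1
    omega
  obtain ⟨n, hn⟩ := pigeon (hfin.prod (Set.finite_Iic (Yi 0).length))
  have hW := (hMem _).mp (hin n p)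
  rw [f3, f4] at hW
  obtain ⟨P, α, m, β, e0, e1, e2, e3, e4, e5, e6⟩ := path hS h0 hW.2
  set W := A0 ++ pw U n ++ O q (replicate p a ++ replicate p d ++ E) with hWd
  have mono : ∀ t t', t ≤ t' → (α t).length ≤ (α t').length ∧ (β t).length ≤ (β t').length := by
    intro t t' h
    obtain ⟨a, b, h1, h2, -⟩ := e6 t t' h
    simp [h1, h2]
  have c0 : ∀ t, Ctx Acc p0 (α t) (β t) (P t) := by
    intro t
    obtain ⟨a, b, h1, h2, h3⟩ := e6 0 t (Nat.zero_le _)
    rw [e1, nil_append] at h1
    rw [e2, append_nil] at h2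
    rwa [h1, h2, ← e0]
  have iα : ∀ T v, v ≤ (α T).length → ∃ t ≤ T, (α t).length = v := fun T v =>
    ivt (f := fun t => (α t).length) (by simp [e1]) (fun t => (e5 t).1)
  have iβ : ∀ T v, v ≤ (β T).length → ∃ t ≤ T, (β t).length = v := fun T v =>
    ivt (f := fun t => (β t).length) (by simp [e2]) (fun t => (e5 t).2)
  have claim1 : ∃ t, (α t).length = (A0 ++ pw U n).length ∧ (β t).length ≤ (Yi 0).length := by
    by_contra hc
    push Not at hc
    have h1 : ∀ t, (β t).length ≤ (Yi 0).length → (α t).length < (A0 ++ pw U n).length := by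
      intro t ht
      by_contra h
      obtain ⟨t', h2, h3⟩ := iα t _ (not_lt.mp h)
      exact absurd (hc t' h3) (not_lt.mpr ((mono _ _ h2).2.trans ht))
    have h2 : (Yi 0).length ≤ (β W.length).length := by
      by_contra h
      have h3 := h1 _ (not_le.mp h).le
      have h4 := congrArg length (e3 W.length).2.2
      rw [e4] at h4
      have h5 := congrArg length hWd
      rw [f5 0 (Nat.zero_le _)] at h5
      simp only [length_append, length_nil] at h3 h4 h5
      omega
    have h3 : ∀ i, ∃ (t k : ℕ) (s : List Y), i ≤ p → (β t = Yi i ∧ α t ++ m t = A0 ++ pw U n ++ Dp i ∧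
        k ≤ n ∧ (s <:+ A0 ∨ s <:+ U) ∧ α t ++ s = A0 ++ pw U k) := by
      intro i
      by_cases hi : i ≤ p
      · obtain ⟨t, -, h4⟩ := iβ _ _ ((f6 i hi).trans h2)
        have h5 := (e3 t).2.2
        rw [hWd, f5 i hi, ← append_assoc] at h5
        obtain ⟨h6, h7⟩ := append_inj' h5 h4.symm
        have h8 : α t <+: A0 ++ pw U n :=
          prefix_of_prefix_length_le (l₃ := A0 ++ pw U n ++ Dp i) ⟨_, h6.symm⟩ (prefix_append _ _)
            (h1 t (h4 ▸ f6 i hi)).le
        obtain ⟨k, h9, s, h10⟩ := pre_pw h8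
        exact ⟨t, k, s, fun _ => ⟨h7.symm, h6.symm, h9, h10⟩⟩
      · exact ⟨0, 0, [], fun h => absurd h hi⟩
    choose τ k s h3 using h3
    have key : ∀ i ≤ p, ∀ i' ≤ p, τ i ≤ τ i' → P (τ i) = P (τ i') → g i = g i' → s i = s i' →
        i = i' := by
      intro i hi i' hi' ht hP hg hs
      obtain ⟨a1, -, -, -, a2⟩ := h3 i hi
      obtain ⟨-, b1, b2, -, b3⟩ := h3 i' hi'
      have b4 : m (τ i') = s i' ++ pw U (n - k i') ++ Dp i' := by
        have : α (τ i') ++ m (τ i') = α (τ i') ++ (s i' ++ pw U (n - k i') ++ Dp i') := by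
          have e : pw U n = pw U (k i') ++ pw U (n - k i') := by rw [← pw_add]; congr 1; omega
          rw [b1, ← append_assoc, ← append_assoc, b3, e]
          simp only [append_assoc]
        exact append_cancel_left this
      have b5 := c0 (τ i) _ (hP ▸ (e3 (τ i')).2.1)
      have b6 : replicate p a ++ replicate (i' + (p - i)) d ++ E =
          (replicate p a ++ replicate i' d) ++ (replicate (p - i) d ++ E) := by
        simp only [replicate_add, append_assoc]
      have b7 : replicate p a ++ replicate p d ++ E =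
          (replicate p a ++ replicate i d) ++ (replicate (p - i) d ++ E) := by
        rw [append_assoc, append_assoc, ← append_assoc (replicate i d), ← replicate_add]
        congr 3
        omega
      have b8 := hcnt (k i + (n - k i')) p (i' + (p - i)) ((hMem _).mpr ⟨?_, ?_⟩)
      · omega
      · rw [f4, b6, foldl_append]
        have := hW.1
        rw [b7, foldl_append] at this
        change foldl δ (g i') _ ∈ F
        rw [← hg]
        exact this
      · rw [f3, b6, hO, pw_add, ← append_assoc A0, ← a2]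
        change Acc p0 (_ ++ (Dp i' ++ O (g i') _))
        rw [← hg]
        rw [b4, a1, ← hs] at b5
        simpa only [append_assoc] using b5
    obtain ⟨i, j, h4, h5, h6⟩ := hp (fun i => (P (τ i), g i, s i))
      (fun i hi => ⟨(e3 _).1, trivial, (h3 i hi).2.2.2.1⟩)
    simp only [Prod.mk.injEq] at h6
    rcases le_total (τ i) (τ j) with h | h
    · exact absurd (key i (by omega) j h5 h h6.1 h6.2.1 h6.2.2) h4.ne
    · exact absurd (key j h5 i (by omega) h h6.1.symm h6.2.1.symm h6.2.2.symm) h4.ne'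
  obtain ⟨t1, h1, h2⟩ := claim1
  have h3 : ∀ i, ∃ t, i ≤ n → (α t = A0 ++ pw U i ∧ (β t).length ≤ (Yi 0).length ∧
      m t ++ β t = pw U (n - i) ++ O q (replicate p a ++ replicate p d ++ E)) := by
    intro i
    by_cases hi : i ≤ n
    · have h4 : pw U n = pw U i ++ pw U (n - i) := by rw [← pw_add]; congr 1; omega
      obtain ⟨t, h5, h6⟩ := iα t1 (A0 ++ pw U i).length (by rw [h1, h4]; simp)
      have h7 := (e3 t).2.2
      rw [hWd, h4, ← append_assoc, append_assoc (A0 ++ pw U i), append_assoc (α t)] at h7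
      obtain ⟨h8, h9⟩ := append_inj h7 h6.symm
      exact ⟨t, fun _ => ⟨h8.symm, (mono _ _ h5).2.trans h2, h9.symm⟩⟩
    · exact ⟨0, fun h => absurd h hi⟩
  choose τ h3 using h3
  obtain ⟨i, j, h4, h5, h6⟩ := hn (fun i => (P (τ i), (β (τ i)).length))
    (fun i hi => ⟨(e3 _).1, (h3 i hi).2.1⟩)
  simp only [Prod.mk.injEq] at h6
  obtain ⟨a1, -, a2⟩ := h3 i (by omega)
  obtain ⟨b1, -, -⟩ := h3 j h5
  have hji : pw U j = pw U i ++ pw U (j - i) := by rw [← pw_add]; congr 1; omega
  refine ⟨P (τ i), (e3 _).1, ⟨j - i, by omega, ?_⟩, fun V' hV' hc => ⟨i, n - i, p, (hMem _).mpr ⟨?_, ?_⟩⟩⟩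
  · rw [f2]
    rcases le_total (τ i) (τ j) with h | h
    · obtain ⟨u, v, c1, c2, c3⟩ := e6 _ _ h
      have c4 := congrArg length c2
      rw [length_append] at c4
      have c5 : v = [] := length_eq_zero_iff.mp (by omega)
      rw [a1, b1, hji, append_assoc] at c1
      rw [append_cancel_left (append_cancel_left c1), ← c5]
      rwa [← h6.1] at c3
    · have c1 := (mono _ _ h).1
      rw [a1, b1, hji] at c1
      simp only [length_append] at c1
      have c2 : pw U (j - i) = [] := length_eq_zero_iff.mp (by omega)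
      rw [c2]
      intro z hz
      simpa using hz
  · have := hW.1
    simpa only [foldl_append, hy, f1, hV'] using this
  · have c1 := c0 (τ i) _ (hc _ (e3 (τ i)).2.1)
    rw [a1, append_nil, append_assoc, append_assoc, append_assoc, a2] at c1
    simpa only [hO, foldl_append, hy, f1, hV', f2, append_assoc] using c1

end Pool.Agent.H.MP_773080_lc
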